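import Pool.Agent.H74R2.WT.Stmts

set_option autoImplicit false

open MeasureTheory Set

namespace H74R2.WT

namespace F2x

theorem poly : P_poly := by
  intro K L G hL hG hb
  refine ⟨hb, L, hL, ?_⟩
  have hc : ∀ q : ℝ × ℝ × ℝ, Continuous fun z : ℂ => q.1 * z.re + q.2.1 * z.im := by
    intro q
    exact (continuous_const.mul Complex.continuous_re).add
      (continuous_const.mul Complex.continuous_im)
  have hopen : IsOpen G := by
    rw [hG]
    have : {z : ℂ | ∀ q ∈ L, q.1 * z.re + q.2.1 * z.im < q.2.2} =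
        ⋂ q ∈ L, {z : ℂ | q.1 * z.re + q.2.1 * z.im < q.2.2} := by
      ext z
      simp
    rw [this]
    exact isOpen_biInter_finset fun q _ => isOpen_lt (hc q) continuous_const
  have hcl : closure G ⊆ {z : ℂ | ∀ q ∈ L, q.1 * z.re + q.2.1 * z.im ≤ q.2.2} := by
    apply closure_minimal
    · rw [hG]
      intro z hz q hq
      exact (hz q hq).le
    · have : {z : ℂ | ∀ q ∈ L, q.1 * z.re + q.2.1 * z.im ≤ q.2.2} =
          ⋂ q ∈ L, {z : ℂ | q.1 * z.re + q.2.1 * z.im ≤ q.2.2} := by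
        ext z
        simp
      rw [this]
      exact isClosed_biInter fun q _ => isClosed_le (hc q) continuous_const
  intro z hz
  rw [hopen.frontier_eq] at hz
  have h1 := hcl hz.1
  have h2 := hz.2
  rw [hG] at h2
  simp only [mem_ofPred_eq, not_forall, not_lt] at h2
  obtain ⟨q, hq, hle⟩ := h2
  exact ⟨q, hq, le_antisymm (h1 q hq) hle⟩

/-- boundedness -/
theorem bdd (a b c1 c2 k1 k2 : ℝ) (G : Set ℂ)
    (h : ∀ z ∈ G, (a < z.re ∧ z.re < b) ∧ (c1 + k1 * z.re < z.im ∧ z.im < c2 + k2 * z.re)) :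
    Bornology.IsBounded G := by
  rw [isBounded_iff_forall_norm_le]
  refine ⟨(|a| + |b|) + (|c1| + |c2| + (|k1| + |k2|) * (|a| + |b|)), ?_⟩
  intro z hz
  obtain ⟨⟨h1, h2⟩, h3, h4⟩ := h z hz
  have hre : |z.re| ≤ |a| + |b| := by
    rw [abs_le]
    constructor
    · have := neg_abs_le a
      have := abs_nonneg b
      linarith
    · have := le_abs_self b
      have := abs_nonneg a
      linarith
  have hk1 : |k1 * z.re| ≤ |k1| * (|a| + |b|) := by
    rw [abs_mul]
    exact mul_le_mul_of_nonneg_left hre (abs_nonneg _)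
  have hk2 : |k2 * z.re| ≤ |k2| * (|a| + |b|) := by
    rw [abs_mul]
    exact mul_le_mul_of_nonneg_left hre (abs_nonneg _)
  have him : |z.im| ≤ |c1| + |c2| + (|k1| + |k2|) * (|a| + |b|) := by
    rw [abs_le]
    constructor
    · have e1 := neg_abs_le c1
      have e2 := abs_nonneg c2
      have e3 := neg_abs_le (k1 * z.re)
      have e4 : 0 ≤ |k2| * (|a| + |b|) := by positivity
      nlinarith
    · have e1 := le_abs_self c2
      have e2 := abs_nonneg c1
      have e3 := le_abs_self (k2 * z.re)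
      have e4 : 0 ≤ |k1| * (|a| + |b|) := by positivity
      nlinarith
  have := Complex.norm_le_abs_re_add_abs_im z
  linarith

theorem gdX (K : Subfield ℝ) (a b c1 c2 : ℝ) (k1 k2 : K) :
    Gd K {z : ℂ | (a < z.re ∧ z.re < b) ∧
      (c1 + (k1 : ℝ) * z.re < z.im ∧ z.im < c2 + (k2 : ℝ) * z.re)} := by
  classical
  apply poly K ({(-1, 0, -a), (1, 0, b), ((k1 : ℝ), -1, -c1), (-(k2 : ℝ), 1, c2)} :
    Finset (ℝ × ℝ × ℝ))
  · intro q hq
    simp only [Finset.mem_insert, Finset.mem_singleton] at hq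
    rcases hq with rfl | rfl | rfl | rfl
    · exact ⟨K.neg_mem K.one_mem, K.zero_mem, Or.inl (by norm_num)⟩
    · exact ⟨K.one_mem, K.zero_mem, Or.inl (by norm_num)⟩
    · exact ⟨k1.2, K.neg_mem K.one_mem, Or.inr (by norm_num)⟩
    · exact ⟨K.neg_mem k2.2, K.one_mem, Or.inr (by norm_num)⟩
  · ext z
    simp only [mem_ofPred_eq, Finset.mem_insert, Finset.mem_singleton, forall_eq_or_imp,
      forall_eq]
    constructor
    · rintro ⟨⟨h1, h2⟩, h3, h4⟩
      refine ⟨by linarith, by linarith, by linarith, by linarith⟩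
    · rintro ⟨h1, h2, h3, h4⟩
      refine ⟨⟨by linarith, by linarith⟩, by linarith, by linarith⟩
  · exact bdd a b c1 c2 k1 k2 _ fun z hz => hz

theorem gdY (K : Subfield ℝ) (a b c1 c2 : ℝ) (k1 k2 : K) :
    Gd K {z : ℂ | (a < z.im ∧ z.im < b) ∧
      (c1 + (k1 : ℝ) * z.im < z.re ∧ z.re < c2 + (k2 : ℝ) * z.im)} := by
  classical
  apply poly K ({(0, -1, -a), (0, 1, b), (-1, (k1 : ℝ), -c1), (1, -(k2 : ℝ), c2)} :
    Finset (ℝ × ℝ × ℝ))
  · intro q hq
    simp only [Finset.mem_insert, Finset.mem_singleton] at hq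
    rcases hq with rfl | rfl | rfl | rfl
    · exact ⟨K.zero_mem, K.neg_mem K.one_mem, Or.inr (by norm_num)⟩
    · exact ⟨K.zero_mem, K.one_mem, Or.inr (by norm_num)⟩
    · exact ⟨K.neg_mem K.one_mem, k1.2, Or.inl (by norm_num)⟩
    · exact ⟨K.one_mem, K.neg_mem k2.2, Or.inl (by norm_num)⟩
  · ext z
    simp only [mem_ofPred_eq, Finset.mem_insert, Finset.mem_singleton, forall_eq_or_imp,
      forall_eq]
    constructor
    · rintro ⟨⟨h1, h2⟩, h3, h4⟩
      refine ⟨by linarith, by linarith, by linarith, by linarith⟩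
    · rintro ⟨h1, h2, h3, h4⟩
      refine ⟨⟨by linarith, by linarith⟩, by linarith, by linarith⟩
  · have hb := bdd a b c1 c2 k1 k2 {z : ℂ | (a < z.re ∧ z.re < b) ∧
      (c1 + (k1 : ℝ) * z.re < z.im ∧ z.im < c2 + (k2 : ℝ) * z.re)} fun z hz => hz
    rw [isBounded_iff_forall_norm_le] at hb ⊢
    obtain ⟨C, hC⟩ := hb
    refine ⟨C, fun z hz => ?_⟩
    have h1 := hC (swap z) hz
    have h2 : ‖swap z‖ = ‖z‖ := by
      rw [Complex.norm_eq_sqrt_sq_add_sq, Complex.norm_eq_sqrt_sq_add_sq]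
      simp only [swap]
      rw [add_comm]
    rwa [h2] at h1

end F2x

theorem t_F2 : T_F2 := by
  refine ⟨F2x.poly, ?_, ?_⟩
  · intro K t
    refine ⟨F2x.gdY K t.a t.b t.c1 t.c2 t.k1 t.k2, ?_⟩
    have h : swap '' t.set = {z : ℂ | (t.a < z.re ∧ z.re < t.b) ∧
        (t.c1 + (t.k1 : ℝ) * z.re < z.im ∧ z.im < t.c2 + (t.k2 : ℝ) * z.re)} := by
      ext z
      constructor
      · rintro ⟨w, hw, rfl⟩
        exact hw
      · intro hz
        exact ⟨swap z, hz, rfl⟩
    rw [h]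
    exact F2x.gdX K t.a t.b t.c1 t.c2 t.k1 t.k2
  · intro K a b c M k _
    have h := F2x.gdX K a b (-M) c 0 k
    simpa [Under] using h

end H74R2.WT
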